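import Pool.Agent.MQG.StmtsH

set_option autoImplicit false

namespace Pool.Agent.MQG.H49

open scoped InnerProductSpace InnerProduct Topology
open Complex Filter MeasureTheory

variable {E : Type} [NormedAddCommGroup E] [NormedSpace ℂ E] [CompleteSpace E]

omit [CompleteSpace E] in
theorem integrable_smul' (n : ℕ) {φ : ℝ → E} {C : ℝ} (hφ : Continuous φ) (hC : ∀ t, ‖φ t‖ ≤ C)
    (z : ℂ) : Integrable fun t => gk n z t • φ t := by
  refine Integrable.mono' ((integrable_gk n z).norm.mul_const C)
    ((continuous_gk n z).smul hφ).aestronglyMeasurable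
    (Eventually.of_forall fun t => ?_)
  rw [norm_smul]
  exact mul_le_mul_of_nonneg_left (hC t) (norm_nonneg _)

omit [CompleteSpace E] in
theorem differentiable_gk (n : ℕ) {φ : ℝ → E} {C : ℝ} (hφ : Continuous φ) (hC : ∀ t, ‖φ t‖ ≤ C) :
    Differentiable ℂ fun z => ∫ t : ℝ, gk n z t • φ t := by
  intro z₀
  have hC0 : 0 ≤ C := (norm_nonneg _).trans (hC 0)
  set c : ℝ := (n : ℝ) + 1 with hc
  set R : ℝ := ‖z₀‖ + 1 with hR
  have hR0 : 0 ≤ R := by positivity
  have hc0 : 0 ≤ c := by positivity
  have h := hasDerivAt_integral_of_dominated_loc_of_deriv_le (μ := volume) (𝕜 := ℂ)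
    (F := fun z t => gk n z t • φ t)
    (F' := fun z t => (2 * ((n : ℂ) + 1) * ((t : ℂ) - z) * gk n z t) • φ t)
    (x₀ := z₀) (s := Metric.ball z₀ 1)
    (bound := fun t => (2 * c * (√(c / Real.pi) * Real.exp (2 * c * R ^ 2)) * C) *
      ((|t| + R) * Real.exp (-(c / 2) * t ^ 2)))
    (Metric.ball_mem_nhds _ one_pos)
    (Eventually.of_forall fun z => (integrable_smul' n hφ hC z).aestronglyMeasurable)
    (integrable_smul' n hφ hC z₀)
    (by
      refine Continuous.aestronglyMeasurable ?_
      exact ((by fun_prop : Continuous fun t : ℝ => 2 * ((n : ℂ) + 1) * ((t : ℂ) - z₀)).mul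
        (continuous_gk n z₀)).smul hφ)
    (by
      refine Eventually.of_forall fun t z hz => ?_
      have hz' : ‖z‖ ≤ R := by
        have h1 : ‖z - z₀‖ < 1 := by simpa [dist_eq_norm] using hz
        calc ‖z‖ = ‖z₀ + (z - z₀)‖ := by ring_nf
          _ ≤ ‖z₀‖ + ‖z - z₀‖ := norm_add_le _ _
          _ ≤ R := by linarith
      have h2 : ‖(2 * ((n : ℂ) + 1) * ((t : ℂ) - z))‖ ≤ 2 * c * (|t| + R) := by
        rw [norm_mul, norm_mul]
        have h3 : ‖((n : ℂ) + 1)‖ = c := by
          have : ((n : ℂ) + 1) = ((c : ℝ) : ℂ) := by push_cast [hc]; ring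
          rw [this, Complex.norm_real, Real.norm_of_nonneg hc0]
        have h4 : ‖(t : ℂ) - z‖ ≤ |t| + R := by
          refine (norm_sub_le _ _).trans ?_
          rw [Complex.norm_real, Real.norm_eq_abs]
          linarith
        rw [h3, Complex.norm_two]
        gcongr
      have h5 := norm_gk_le n hz' t
      rw [norm_smul, norm_mul]
      calc ‖(2 * ((n : ℂ) + 1) * ((t : ℂ) - z))‖ * ‖gk n z t‖ * ‖φ t‖
          ≤ (2 * c * (|t| + R)) * (√(c / Real.pi) * Real.exp (2 * c * R ^ 2) *
            Real.exp (-(c / 2) * t ^ 2)) * C := by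
            gcongr
            exact hC t
        _ = _ := by ring)
    (integrable_gauss_bound n _ _)
    (by
      refine Eventually.of_forall fun t z _ => ?_
      refine HasDerivAt.smul_const ?_ (φ t)
      have h1 : HasDerivAt (fun z : ℂ => -((n : ℂ) + 1) * ((t : ℂ) - z) ^ 2)
          (-((n : ℂ) + 1) * (2 * ((t : ℂ) - z) * (-1))) z := by
        have h2 : HasDerivAt (fun z : ℂ => (t : ℂ) - z) (-1) z := by
          simpa using (hasDerivAt_id z).const_sub (t : ℂ)
        have h3 := h2.pow 2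
        have h4 := h3.const_mul (-((n : ℂ) + 1))
        refine h4.congr_deriv ?_
        simp
      have h5 := (h1.cexp).const_mul ((√(((n : ℝ) + 1) / Real.pi) : ℝ) : ℂ)
      refine h5.congr_deriv ?_
      rw [gk]
      ring)
  exact h.2.differentiableAt

omit [CompleteSpace E] in
theorem shift_gk (n : ℕ) (φ : ℝ → E) (s : ℝ) (z : ℂ) :
    ∫ t : ℝ, gk n (z + s) t • φ t = ∫ t : ℝ, gk n z t • φ (t + s) := by
  calc ∫ t : ℝ, gk n (z + s) t • φ t = ∫ t, gk n z (t - s) • φ t := by
        simp only [gk_shift]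
    _ = ∫ t, (fun t => gk n z (t - s) • φ t) (t + s) :=
        (integral_add_right_eq_self (fun t => gk n z (t - s) • φ t) s).symm
    _ = ∫ t, gk n z t • φ (t + s) := by
        congr 1
        funext t
        show gk n z (t + s - s) • φ (t + s) = _
        rw [add_sub_cancel_right]

theorem integral_gk_one (n : ℕ) (z : ℂ) : ∫ t : ℝ, gk n z t = 1 := by
  have h1 : Differentiable ℂ fun z => ∫ t : ℝ, gk n z t • (1 : ℂ) :=
    differentiable_gk n (φ := fun _ => (1 : ℂ)) (C := 1) continuous_const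
      (fun _ => by rw [norm_one])
  have h2 : (fun z : ℂ => ∫ t : ℝ, gk n z t • (1 : ℂ)) = fun _ => 1 := by
    refine entire_ext h1 (differentiable_const _) fun s => ?_
    have h3 := shift_gk n (fun _ => (1 : ℂ)) s 0
    rw [zero_add] at h3
    rw [h3]
    simp only [smul_eq_mul, mul_one]
    exact integral_gk_zero n
  have h4 := congrFun h2 z
  simp only [smul_eq_mul, mul_one] at h4
  exact h4

theorem hge : HgeStmt := fun _ _ _ _ n φ _ hφ hC =>
  ⟨differentiable_gk n hφ hC, fun s z => shift_gk n φ s z, integral_gk_one n⟩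

end Pool.Agent.MQG.H49
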