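import Pool.Agent.MQG.StmtsH

set_option autoImplicit false

namespace Pool.Agent.MQG.H49

open scoped InnerProductSpace InnerProduct Topology
open Complex Filter MeasureTheory

variable {ι : Type} {V : ℝ → Op ι}

/-- the integrand -/
noncomputable def ker (V : ℝ → Op ι) (a : Op ι) (u y : L2 ι) (t : ℝ) : ℂ :=
  ⟪V (-t) u, a (V (-t) y)⟫_ℂ

theorem continuous_ker (hV : IsGroup V) (a : Op ι) (u y : L2 ι) : Continuous (ker V a u y) := by
  unfold ker
  have h1 : Continuous fun t : ℝ => V (-t) u := (hV.cont u).comp continuous_neg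
  have h2 : Continuous fun t : ℝ => a (V (-t) y) :=
    a.continuous.comp ((hV.cont y).comp continuous_neg)
  exact h1.inner h2

theorem norm_ker_le (hV : IsGroup V) (a : Op ι) (u y : L2 ι) (t : ℝ) :
    ‖ker V a u y t‖ ≤ ‖a‖ * ‖u‖ * ‖y‖ := by
  unfold ker
  refine (norm_inner_le_norm _ _).trans ?_
  have h1 : ‖a (V (-t) y)‖ ≤ ‖a‖ * ‖y‖ := by
    refine (a.le_opNorm _).trans ?_
    rw [hV.norm_apply]
  rw [hV.norm_apply]
  calc ‖u‖ * ‖a (V (-t) y)‖ ≤ ‖u‖ * (‖a‖ * ‖y‖) := by gcongr
    _ = ‖a‖ * ‖u‖ * ‖y‖ := by ring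

theorem integrable_ker (hV : IsGroup V) (a : Op ι) (z : ℂ) (u y : L2 ι) :
    Integrable fun t => gk 0 z t • ker V a u y t := by
  refine Integrable.mono' ((integrable_gk 0 z).norm.mul_const (‖a‖ * ‖u‖ * ‖y‖))
    ((continuous_gk 0 z).smul (continuous_ker hV a u y)).aestronglyMeasurable
    (Eventually.of_forall fun t => ?_)
  rw [norm_smul]
  exact mul_le_mul_of_nonneg_left (norm_ker_le hV a u y t) (norm_nonneg _)

/-- the sesquilinear form -/
noncomputable def meanForm (hV : IsGroup V) (a : Op ι) (z : ℂ) : L2 ι →L⋆[ℂ] L2 ι →L[ℂ] ℂ :=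
  LinearMap.mkContinuous₂
    (LinearMap.mk₂'ₛₗ (starRingEnd ℂ) (RingHom.id ℂ)
      (fun u y => ∫ t : ℝ, gk 0 z t • ker V a u y t)
      (fun u u' y => by
        rw [← integral_add (integrable_ker hV a z u y) (integrable_ker hV a z u' y)]
        congr 1
        funext t
        unfold ker
        rw [map_add, inner_add_left, smul_add])
      (fun r u y => by
        rw [← integral_smul]
        congr 1
        funext t
        unfold ker
        rw [map_smul, inner_smul_left, smul_eq_mul, smul_eq_mul, smul_eq_mul]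
        ring)
      (fun u y y' => by
        rw [← integral_add (integrable_ker hV a z u y) (integrable_ker hV a z u y')]
        congr 1
        funext t
        unfold ker
        rw [map_add, map_add, inner_add_right, smul_add])
      (fun r u y => by
        rw [← integral_smul]
        congr 1
        funext t
        unfold ker
        rw [map_smul, map_smul, inner_smul_right, smul_eq_mul, smul_eq_mul, smul_eq_mul,
          RingHom.id_apply]
        ring))
    ((∫ t : ℝ, ‖gk 0 z t‖) * ‖a‖) (fun u y => by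
      show ‖∫ t : ℝ, gk 0 z t • ker V a u y t‖ ≤ _
      refine (norm_integral_le_integral_norm _).trans ?_
      have h1 : ∫ t : ℝ, ‖gk 0 z t • ker V a u y t‖ ≤
          ∫ t : ℝ, ‖gk 0 z t‖ * (‖a‖ * ‖u‖ * ‖y‖) := by
        apply integral_mono (integrable_ker hV a z u y).norm
          ((integrable_gk 0 z).norm.mul_const _)
        intro t
        show ‖gk 0 z t • ker V a u y t‖ ≤ ‖gk 0 z t‖ * (‖a‖ * ‖u‖ * ‖y‖)
        rw [norm_smul]
        exact mul_le_mul_of_nonneg_left (norm_ker_le hV a u y t) (norm_nonneg _)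
      rw [integral_mul_const] at h1
      refine h1.trans (le_of_eq ?_)
      ring)

theorem norm_meanForm_le (hV : IsGroup V) (a : Op ι) (z : ℂ) :
    ‖meanForm hV a z‖ ≤ (∫ t : ℝ, ‖gk 0 z t‖) * ‖a‖ :=
  LinearMap.mkContinuous₂_norm_le _
    (mul_nonneg (integral_nonneg fun _ => norm_nonneg _) (norm_nonneg _)) _

theorem hmx : HmxStmt := by
  intro ι V hV z a
  refine ⟨(InnerProductSpace.continuousLinearMapOfBilin (meanForm hV a z))†, ?_, ?_⟩
  · intro u y
    rw [ContinuousLinearMap.adjoint_inner_right,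
      InnerProductSpace.continuousLinearMapOfBilin_apply]
    rfl
  · have hnn : 0 ≤ (∫ t : ℝ, ‖gk 0 z t‖) * ‖a‖ :=
      mul_nonneg (integral_nonneg fun _ => norm_nonneg _) (norm_nonneg _)
    refine ContinuousLinearMap.opNorm_le_bound _ hnn fun y => ?_
    set B := InnerProductSpace.continuousLinearMapOfBilin (meanForm hV a z)
    -- the norm of a vector from its inner products
    have h1 : ‖(B†) y‖ ^ 2 ≤ ((∫ t : ℝ, ‖gk 0 z t‖) * ‖a‖ * ‖y‖) * ‖(B†) y‖ := by
      have h2 : (⟪(B†) y, (B†) y⟫_ℂ) = meanForm hV a z ((B†) y) y := by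
        rw [ContinuousLinearMap.adjoint_inner_right,
          InnerProductSpace.continuousLinearMapOfBilin_apply]
      have h3 : ‖(⟪(B†) y, (B†) y⟫_ℂ)‖ = ‖(B†) y‖ ^ 2 := by
        rw [inner_self_eq_norm_sq_to_K]
        simp
      rw [← h3, h2]
      refine ((meanForm hV a z).le_opNorm₂ _ _).trans ?_
      have h4 := norm_meanForm_le hV a z
      calc ‖meanForm hV a z‖ * ‖(B†) y‖ * ‖y‖
          ≤ ((∫ t : ℝ, ‖gk 0 z t‖) * ‖a‖) * ‖(B†) y‖ * ‖y‖ := by gcongr
        _ = _ := by ring
    by_cases h5 : ‖(B†) y‖ = 0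
    · rw [h5]
      positivity
    · have h6 : 0 < ‖(B†) y‖ := lt_of_le_of_ne (norm_nonneg _) (Ne.symm h5)
      rw [sq] at h1
      exact le_of_mul_le_mul_right h1 h6

end Pool.Agent.MQG.H49
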